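import Pool.Agent.Lib.SmN.Cnt.Stmts

/-!
# SMITH-U (SmN), block L: the independent part of the recursion and its coefficients
-/

set_option autoImplicit false

open Finset

namespace Pool.Agent.SmN.CData

variable {G V V1 Pl : Type} [Group G] [AddCommGroup V] [DistribMulAction G V]
  [AddCommGroup V1] [Module (ZMod 2) V1] {S : Sys G V V1 Pl} {X : PSys} (cd : CData S X)

/-- The relations below level `m`. -/
abbrev LamT (J : Type) (m : ℕ) : Type := Fin (m - 1) → Set (cd.CodeN J × (cd.CodeN J → ZMod 2))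

variable {J : Type}

open Classical in
/-- The relations as a function on all levels. -/
noncomputable def lamOf {m : ℕ} (L : cd.LamT J m) (i : ℕ) :
    Set (cd.CodeN J × (cd.CodeN J → ZMod 2)) :=
  if h : i - 1 < m - 1 then L ⟨i - 1, h⟩ else ∅

/-- The condition on the pair `(a, b)` in the recursion at level `m`. -/
def CondN (F : Set (cd.CodeN J)) (Lam : ℕ → Set (cd.CodeN J × (cd.CodeN J → ZMod 2))) (m : ℕ)
    (a b : cd.CodeN J) : Prop :=
  a ∈ cd.LflN F Lam m ∧ b ∈ F ∧ cd.Indep2N a b ∧ cd.PerpN Lam (m - 1) b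

/-- The product of the orders of `L 1, ..., L i`. -/
noncomputable def nzOfN (F : Set (cd.CodeN J))
    (Lam : ℕ → Set (cd.CodeN J × (cd.CodeN J → ZMod 2))) (i : ℕ) : ℕ :=
  ∏ l ∈ range i, Nat.card (cd.LflN F Lam (l + 1))

/-- The admissible choices of the directions inside the set `A` of indices. -/
def ScN (F : Set (cd.CodeN J)) (Lam : ℕ → Set (cd.CodeN J × (cd.CodeN J → ZMod 2))) (A : Set J)
    (m : ℕ) (a b : cd.CodeN J) : Set (Dir m ↪ J) :=
  {dir | (∀ i, dir i ∈ A) ∧ Nonempty (cd.SuppN F (cd.LflN F Lam) m a b dir)}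

variable [Fintype J]

/-- The large split entries. -/
def Lsp (p : J → cd.Mk) (N : ℕ) : Set J := {j | N ≤ X.deg (p j).1 ∧ cd.Split (p j)}

/-- The vector `p` is typical (in terms of `FN`). -/
structure TypF (p : J → cd.Mk) (R : ℕ) (ρ : ℝ) (N : ℕ) : Prop where
  small : Nat.card (cd.FN p) ≤ 2 ^ R
  generic : ∀ (r : ℕ) (c : Fin r → cd.CodeN J), (∀ i, c i ∈ cd.FN p) → cd.IndepN c →
    ∀ w : Fin r → V1, ρ * Nat.card J ≤ Nat.card {j : J // j ∈ cd.Lsp p N ∧ ∀ i, (c i).2 j = w i}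

open Classical in
/-- The independent part of the recursion at level `m`. -/
noncomputable def indN (p : J → cd.Mk) (m : ℕ) : ℝ :=
  cd.nZN p (m - 1) * ∑ᶠ ab : cd.CodeN J × cd.CodeN J,
    if cd.CondN (cd.FN p) (cd.LamN p) m ab.1 ab.2 then (-1 : ℝ) ^ (cd.FFN p m ab.1 ab.2).val else 0

open Classical in
/-- The coefficient of `dir` and `(a, b)` at `p`. -/
noncomputable def coefN (R : ℕ) (ρ : ℝ) (N m : ℕ) (dir : Dir m ↪ J)
    (ab : cd.CodeN J × cd.CodeN J) (p : J → cd.Mk) : ℝ :=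
  if cd.TypF p R ρ N ∧ cd.CondN (cd.FN p) (cd.LamN p) m ab.1 ab.2 ∧
      dir ∈ cd.ScN (cd.FN p) (cd.LamN p) (cd.Lsp p N) m ab.1 ab.2 then
    (cd.nZN p (m - 1) : ℝ) /
      Nat.card (cd.ScN (cd.FN p) (cd.LamN p) (cd.Lsp p N) m ab.1 ab.2) else 0

end Pool.Agent.SmN.CData
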