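import Pool.Agent.Lib.SmN.L.VecL

/-!
# SmN, block L: Theorem I on a big block of marked points
-/

set_option autoImplicit false

open Finset

namespace Pool.Agent.SmN.CData

variable {G V V1 Pl : Type} [Group G] [AddCommGroup V] [DistribMulAction G V]
  [AddCommGroup V1] [Module (ZMod 2) V1] {S : Sys G V V1 Pl} {X : PSys} (cd : CData S X)
variable (r0 : {g : G // g ∈ cd.R}) {Ds : Finset X.Pr} {T : Finset ℕ} {m : ℕ}

/-- The big block of `x` is the product of the big classes. -/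
noncomputable def blockEquiv (x : cd.MPts T) (dir : Dir m ↪ JG Ds T)
    (hd : ∀ i, ∃ t, dir i = Sum.inr t) :
    {y : cd.MPts T // cd.SameB (cd.vec r0 Ds x) (cd.vec r0 Ds y) dir} ≃
      ((i : Dir m) → cd.XB (cd.vec r0 Ds x) dir i) :=
  Equiv.ofBijective
    (fun y i => ⟨cd.vec r0 Ds y.1 (dir i), y.2.deg i, y.2.kf i,
      fun j hj => ⟨y.2.ch i j hj, y.2.be i j hj⟩⟩) (by
    constructor
    · intro y y' h
      apply Subtype.ext
      apply cd.vec_inj r0 (Ds := Ds)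
      funext j
      by_cases hj : ∃ i, dir i = j
      · obtain ⟨i, rfl⟩ := hj
        exact congrArg Subtype.val (congrFun h i)
      · push Not at hj
        exact (y.2.off j hj).symm.trans (y'.2.off j hj)
    · intro z
      obtain ⟨y, hy⟩ := cd.exists_pt r0 x dir hd (fun i => (z i).1) fun i => (z i).2.1
      refine ⟨⟨y, ?_⟩, ?_⟩
      · rw [hy]
        exact cd.sameB_replN z
      · funext i
        apply Subtype.ext
        change cd.vec r0 Ds y (dir i) = (z i).1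
        rw [hy, replN_dir])

theorem replN_blockEquiv (x : cd.MPts T) (dir : Dir m ↪ JG Ds T)
    (hd : ∀ i, ∃ t, dir i = Sum.inr t)
    (y : {y : cd.MPts T // cd.SameB (cd.vec r0 Ds x) (cd.vec r0 Ds y) dir}) :
    (cd.replN (cd.vec r0 Ds x) dir fun i => (cd.blockEquiv r0 x dir hd y i).1) =
      cd.vec r0 Ds y.1 := by
  funext j
  by_cases hj : ∃ i, dir i = j
  · obtain ⟨i, rfl⟩ := hj
    rw [replN_dir]
    rfl
  · push Not at hj
    rw [replN_off _ _ _ _ hj]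
    exact y.2.off j hj

open Classical in
/-- The inner part of Theorem I. -/
def GridB (q m R : ℕ) (η : ℝ) (n₀ : ℕ) : Prop :=
  ∀ (J : Type) (_ : Fintype J) (p : J → cd.Mk)
    (a b : cd.CodeN J) (dir : Dir m ↪ J), cd.DirOk p dir → n₀ ≤ cd.degN p →
    Nat.card (cd.FN p) ≤ 2 ^ R →
    a ∈ cd.LflN (cd.FN p) (cd.LamN p) m →
    b ∈ cd.FN p →
    cd.PerpN (cd.LamN p) (m - 1) b →
    Nonempty (cd.SuppN (cd.FN p) (cd.LflN (cd.FN p) (cd.LamN p)) m a b dir) →
    (∀ i, (q : ℝ) ^ (9 * X.deg (p (dir i)).1 / 10) ≤ Nat.card (cd.XB p dir i)) →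
    |∑ᶠ x : (i : Dir m) → cd.XB p dir i,
        if cd.TypEqN dir (cd.replN p dir fun i => (x i).1) p then
          (-1 : ℝ) ^ (cd.FFN (cd.replN p dir fun i => (x i).1) m a b).val else 0| ≤
      η * ∏ i, (Nat.card (cd.XB p dir i) : ℝ)

theorem gridThmN_iff (q m : ℕ) :
    cd.GridThmN q m ↔ ∀ (R : ℕ) (η : ℝ), 0 < η → ∃ n₀ : ℕ, cd.GridB q m R η n₀ := Iff.rfl

open Classical in
/-- Theorem I on a block. -/
theorem block_bound [Finite V1] {q : ℕ} [hfin : Finite (cd.MPts T)] [Fintype (cd.MPts T)]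
    {R : ℕ} {η : ℝ} {n₀ : ℕ} (h0 : cd.GridB q m R η n₀) (x : cd.MPts T)
    (dir : Dir m ↪ JG Ds T)
    (a b : cd.CodeN (JG Ds T)) (hd : ∀ i, ∃ t, dir i = Sum.inr t)
    (hok : cd.DirOk (cd.vec r0 Ds x) dir) (hn : n₀ ≤ cd.degN (cd.vec r0 Ds x))
    (hR : Nat.card (cd.FN (cd.vec r0 Ds x)) ≤ 2 ^ R)
    (hcond : cd.CondN (cd.FN (cd.vec r0 Ds x)) (cd.LamN (cd.vec r0 Ds x)) m a b)
    (hsupp : Nonempty (cd.SuppN (cd.FN (cd.vec r0 Ds x))
      (cd.LflN (cd.FN (cd.vec r0 Ds x)) (cd.LamN (cd.vec r0 Ds x))) m a b dir))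
    (hbig : ∀ i, (q : ℝ) ^ (9 * X.deg (cd.vec r0 Ds x (dir i)).1 / 10) ≤
      Nat.card (cd.XB (cd.vec r0 Ds x) dir i)) :
    |∑ y with cd.SameB (cd.vec r0 Ds x) (cd.vec r0 Ds y) dir ∧
        cd.key dir (cd.vec r0 Ds y) = cd.key dir (cd.vec r0 Ds x),
        (-1 : ℝ) ^ (cd.FFN (cd.vec r0 Ds y) m a b).val| ≤
      η * Nat.card {y : cd.MPts T // cd.SameB (cd.vec r0 Ds x) (cd.vec r0 Ds y) dir} := by
  have h1 := h0 (JG Ds T) inferInstance (cd.vec r0 Ds x) a b dir hok hn hR hcond.1 hcond.2.1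
    hcond.2.2.2 hsupp hbig
  set e := cd.blockEquiv r0 x dir hd with he
  have hfb : Finite ((i : Dir m) → cd.XB (cd.vec r0 Ds x) dir i) := Finite.of_equiv _ e
  have : Fintype ((i : Dir m) → cd.XB (cd.vec r0 Ds x) dir i) := Fintype.ofFinite _
  rw [finsum_eq_sum_of_fintype, ← Equiv.sum_comp e] at h1
  have h2 : ∀ y : {y : cd.MPts T // cd.SameB (cd.vec r0 Ds x) (cd.vec r0 Ds y) dir},
      (if cd.TypEqN dir (cd.replN (cd.vec r0 Ds x) dir fun i => (e y i).1) (cd.vec r0 Ds x) then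
        (-1 : ℝ) ^ (cd.FFN (cd.replN (cd.vec r0 Ds x) dir fun i => (e y i).1) m a b).val else 0) =
      (if cd.key dir (cd.vec r0 Ds y.1) = cd.key dir (cd.vec r0 Ds x) then
        (-1 : ℝ) ^ (cd.FFN (cd.vec r0 Ds y.1) m a b).val else 0) := by
    intro y
    rw [he, cd.replN_blockEquiv r0 x dir hd y]
    by_cases h3 : cd.TypEqN dir (cd.vec r0 Ds y.1) (cd.vec r0 Ds x)
    · rw [if_pos h3, if_pos ((cd.typEqN_iff dir _ _).1 h3)]
    · rw [if_neg h3, if_neg fun h4 => h3 ((cd.typEqN_iff dir _ _).2 h4)]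
  rw [Finset.sum_congr rfl fun y _ => h2 y] at h1
  have h3 : ∑ y with cd.SameB (cd.vec r0 Ds x) (cd.vec r0 Ds y) dir ∧
        cd.key dir (cd.vec r0 Ds y) = cd.key dir (cd.vec r0 Ds x),
        (-1 : ℝ) ^ (cd.FFN (cd.vec r0 Ds y) m a b).val =
      ∑ y : {y : cd.MPts T // cd.SameB (cd.vec r0 Ds x) (cd.vec r0 Ds y) dir},
      (if cd.key dir (cd.vec r0 Ds y.1) = cd.key dir (cd.vec r0 Ds x) then
        (-1 : ℝ) ^ (cd.FFN (cd.vec r0 Ds y.1) m a b).val else 0) := by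
    rw [← Finset.filter_filter, Finset.sum_filter]
    have h4 := Finset.sum_subtype (p := fun y => cd.SameB (cd.vec r0 Ds x) (cd.vec r0 Ds y) dir)
      (F := inferInstance)
      (Finset.univ.filter fun y => cd.SameB (cd.vec r0 Ds x) (cd.vec r0 Ds y) dir)
      (fun y => by
        rw [Finset.mem_filter]
        exact ⟨fun h => h.2, fun h => ⟨Finset.mem_univ _, h⟩⟩)
      (fun y => if cd.key dir (cd.vec r0 Ds y) = cd.key dir (cd.vec r0 Ds x) then
        (-1 : ℝ) ^ (cd.FFN (cd.vec r0 Ds y) m a b).val else 0)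
    convert h4
  rw [h3]
  refine h1.trans (le_of_eq ?_)
  congr 1
  rw [Nat.card_congr e, Nat.card_pi]
  push_cast
  rfl

end Pool.Agent.SmN.CData
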