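import Mathlib

/-!
SMITH-U, block L (pure combinatorics): the number of injections into prescribed sets, the number of
elements in small fibres.
-/

set_option autoImplicit false

namespace Pool.Agent.SmN

private theorem Emb_fin {J : Type} [Finite J] (N m : ℕ) : ∀ (n : ℕ), n ≤ m → ∀ A : Fin n → Set J,
    (∀ i, N ≤ Nat.card (A i)) →
    (N - m) ^ n ≤ Nat.card {f : Fin n → J // Function.Injective f ∧ ∀ i, f i ∈ A i} := by
  classical
  intro n
  induction n with
  | zero =>
    intro _ A _
    have : Nonempty {f : Fin 0 → J // Function.Injective f ∧ ∀ i, f i ∈ A i} :=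
      ⟨⟨fun i => i.elim0, fun i => i.elim0, fun i => i.elim0⟩⟩
    rw [pow_zero]
    exact Nat.succ_le_of_lt Nat.card_pos
  | succ n ih =>
    intro hn A hA
    have := Fintype.ofFinite J
    let G : Type := {f : Fin n → J // Function.Injective f ∧ ∀ i, f i ∈ A i.succ}
    have : Fintype G := Fintype.ofFinite G
    have h1 := ih (by omega) (fun i => A i.succ) (fun i => hA _)
    let E : G → Type := fun g => {x : J // x ∈ A 0 ∧ x ∉ Set.range g.1}
    let F : (Σ g : G, E g) → {f : Fin (n + 1) → J // Function.Injective f ∧ ∀ i, f i ∈ A i} :=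
      fun z => ⟨Fin.cons z.2.1 z.1.1, Fin.cons_injective_iff.mpr ⟨z.2.2.2, z.1.2.1⟩, by
        intro i
        refine Fin.cases ?_ (fun i => ?_) i
        · rw [Fin.cons_zero]
          exact z.2.2.1
        · rw [Fin.cons_succ]
          exact z.1.2.2 i⟩
    have hF : Function.Injective F := by
      rintro ⟨⟨g, hg⟩, ⟨x, hx⟩⟩ ⟨⟨g', hg'⟩, ⟨x', hx'⟩⟩ h
      have h2 : (Fin.cons x g : Fin (n + 1) → J) = Fin.cons x' g' := congrArg Subtype.val h
      obtain ⟨rfl, rfl⟩ := Fin.cons_inj.mp h2
      rfl
    have hE : ∀ g : G, N - m ≤ Nat.card (E g) := by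
      intro g
      have h3 : (A 0).ncard ≤ (Set.range g.1).ncard + (A 0 \ Set.range g.1).ncard := by
        have h4 : A 0 ⊆ Set.range g.1 ∪ (A 0 \ Set.range g.1) := fun x hx => by
          by_cases h5 : x ∈ Set.range g.1
          · exact Or.inl h5
          · exact Or.inr ⟨hx, h5⟩
        exact (Set.ncard_le_ncard h4 (Set.toFinite _)).trans (Set.ncard_union_le _ _)
      have h4 : (Set.range g.1).ncard ≤ n := by
        have h5 := Set.ncard_image_le (f := g.1) (s := Set.univ) (Set.toFinite _)
        rw [Set.image_univ, Set.ncard_univ, Nat.card_eq_fintype_card, Fintype.card_fin] at h5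
        exact h5
      have h5 : N ≤ (A 0).ncard := hA 0
      have h6 : Nat.card (E g) = (A 0 \ Set.range g.1).ncard := rfl
      omega
    calc (N - m) ^ (n + 1) = (N - m) ^ n * (N - m) := pow_succ _ _
      _ ≤ Nat.card G * (N - m) := Nat.mul_le_mul_right _ h1
      _ = ∑ _g : G, (N - m) := by
          rw [Finset.sum_const, Finset.card_univ, smul_eq_mul, Nat.card_eq_fintype_card]
      _ ≤ ∑ g : G, Nat.card (E g) := Finset.sum_le_sum fun g _ => hE g
      _ = Nat.card (Σ g : G, E g) := (Nat.card_sigma).symm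
      _ ≤ _ := Nat.card_le_card_of_injective F hF

/-- The number of injections with values in sets of at least `N` elements. -/
theorem card_emb_ge {ι J : Type} [Fintype ι] [Fintype J] (A : ι → Set J) (N : ℕ)
    (hA : ∀ i, N ≤ Nat.card (A i)) :
    (N - Fintype.card ι) ^ Fintype.card ι ≤ Nat.card {f : ι ↪ J // ∀ i, f i ∈ A i} := by
  classical
  have h1 := Emb_fin N (Fintype.card ι) (Fintype.card ι) le_rfl
    (fun i => A ((Fintype.equivFin ι).symm i)) (fun i => hA _)
  refine h1.trans ?_
  let e := Fintype.equivFin ι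
  refine Nat.card_le_card_of_injective
    (fun f => ⟨⟨fun i => f.1 (e i), fun i j h => e.injective (f.2.1 h)⟩, fun i => ?_⟩) ?_
  · have h2 := f.2.2 (e i)
    rw [Equiv.symm_apply_apply] at h2
    exact h2
  · intro f g h
    apply Subtype.ext
    funext i
    have h2 : f.1 (e (e.symm i)) = g.1 (e (e.symm i)) :=
      congrArg (fun z : {f : ι ↪ J // ∀ i, f i ∈ A i} => z.1 (e.symm i)) h
    rw [Equiv.apply_symm_apply] at h2
    exact h2

/-- The number of elements lying in fibres with at most `M` elements. -/
theorem card_small_fibres {α β : Type} [Finite α] [Finite β] (f : α → β) (M : ℕ) :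
    Nat.card {x : α // Nat.card {y : α // f y = f x} ≤ M} ≤ Nat.card β * M := by
  classical
  have := Fintype.ofFinite β
  let B : Type := {b : β // Nat.card {y : α // f y = b} ≤ M}
  have : Fintype B := Fintype.ofFinite B
  let F : {x : α // Nat.card {y : α // f y = f x} ≤ M} → Σ b : B, {y : α // f y = b.1} :=
    fun x => ⟨⟨f x.1, x.2⟩, ⟨x.1, rfl⟩⟩
  have hF : Function.Injective F := by
    intro x y h
    apply Subtype.ext
    have h2 := congrArg (fun z : Σ b : B, {y : α // f y = b.1} => z.2.1) h
    exact h2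
  calc _ ≤ Nat.card (Σ b : B, {y : α // f y = b.1}) := Nat.card_le_card_of_injective F hF
    _ = ∑ b : B, Nat.card {y : α // f y = b.1} := Nat.card_sigma
    _ ≤ ∑ _b : B, M := Finset.sum_le_sum fun b _ => b.2
    _ = Nat.card B * M := by
        rw [Finset.sum_const, Finset.card_univ, smul_eq_mul, Nat.card_eq_fintype_card]
    _ ≤ Nat.card β * M :=
        Nat.mul_le_mul_right _ (Nat.card_le_card_of_injective Subtype.val Subtype.val_injective)

end Pool.Agent.SmN
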