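import Pool.Agent.Lib.SmN.L.Base
import Pool.Agent.Lib.SmN.L.Emb

/-!
# SMITH-U (SmN), block L: the number of the admissible choices of the directions
-/

set_option autoImplicit false

open Finset

namespace Pool.Agent.SmN.CData

variable {G V V1 Pl : Type} [Group G] [AddCommGroup V] [DistribMulAction G V]
  [AddCommGroup V1] [Module (ZMod 2) V1] {S : Sys G V V1 Pl} {X : PSys} (cd : CData S X)

/-- **The number of the admissible choices of the directions** at a typical vector. -/
theorem card_ScN_ge [Nontrivial V1] (hS : S.Ok) {J : Type} [Fintype J] {p : J → cd.Mk}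
    {R N m : ℕ} {ρ : ℝ} (ht : cd.TypF p R ρ N)
    {Lam : ℕ → Set (cd.CodeN J × (cd.CodeN J → ZMod 2))} {a b : cd.CodeN J}
    (B : cd.BasN (cd.FN p) (cd.LflN (cd.FN p) Lam) m a b) :
    (⌈ρ * Nat.card J⌉₊ - (m + 2)) ^ (m + 2) ≤
      Nat.card (cd.ScN (cd.FN p) Lam (cd.Lsp p N) m a b) := by
  classical
  obtain ⟨e, he0⟩ := exists_ne (0 : V1)
  obtain ⟨e', hpair⟩ : ∃ e', S.e e e' = 1 := by
    by_contra h
    push Not at h
    apply he0
    apply hS.e_nondeg
    intro y
    have h1 : ∀ a : ZMod 2, a ≠ 1 → a = 0 := by decide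
    exact h1 _ (h y)
  have hgen := ht.generic B.r B.c B.mem (fun α hα => B.indep α hα.choose hα.choose_spec)
  -- the patterns
  let W : Dir m → Fin B.r → V1 := fun x => match x with
    | none => fun l => if l = B.l0 then e' else 0
    | some none => fun l => if l = B.l1 then e else 0
    | some (some _) => fun _ => 0
  let A : Dir m → Set J := fun x => {j | j ∈ cd.Lsp p N ∧ ∀ l, (B.c l).2 j = W x l}
  have hA : ∀ x, ⌈ρ * Nat.card J⌉₊ ≤ Nat.card (A x) := fun x => Nat.ceil_le.mpr (hgen (W x))
  have h1 := card_emb_ge A _ hA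
  have h2 : Fintype.card (Dir m) = m + 2 := by
    rw [Fintype.card_option, Fintype.card_option, Fintype.card_fin]
  rw [h2] at h1
  refine h1.trans ?_
  refine Nat.card_le_card_of_injective (fun f => (⟨f.1, fun i => (f.2 i).1, ⟨{
    r := B.r
    c := B.c
    l1 := B.l1
    l0 := B.l0
    e := e
    e' := e'
    ne := B.ne
    c_l1 := B.c_l1
    mem := B.mem
    span := B.span
    indep := B.indep
    adapted := B.adapted
    β := B.β
    b_eq := B.b_eq
    β_l1 := B.β_l1
    β_l0 := B.β_l0
    supp0 := fun l i => (f.2 (some (some i))).2 l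
    suppa := fun l => (f.2 (some none)).2 l
    suppb := fun l => (f.2 none).2 l
    pair := hpair }⟩⟩ : cd.ScN (cd.FN p) Lam (cd.Lsp p N) m a b)) ?_
  intro f g h
  have h3 : f.1 = g.1 := congrArg
    (fun z : cd.ScN (cd.FN p) Lam (cd.Lsp p N) m a b => z.1) h
  exact Subtype.ext h3

end Pool.Agent.SmN.CData
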