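import Pool.Agent.Lib.SmN.L.VecL
import Pool.Agent.Lib.SmN.L.Avg
import Pool.Agent.Lib.SmN.L.ScCount
import Pool.Agent.Lib.SmN.L.Small

/-!
# SmN, block L: the independent part of the recursion is small on every grid
-/

set_option autoImplicit false

open Finset

namespace Pool.Agent.SmN.CData

variable {G V V1 Pl : Type} [Group G] [AddCommGroup V] [DistribMulAction G V]
  [AddCommGroup V1] [Module (ZMod 2) V1] {S : Sys G V V1 Pl} {X : PSys} (cd : CData S X)

section coef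

variable {J : Type} [Fintype J] {m : ℕ}

theorem coefN_congr (hm : 1 ≤ m) (hc : cd.Ok) {p p' : J → cd.Mk} {dir : Dir m ↪ J}
    (hp : cd.LFactsN p) (hp' : cd.LFactsN p') (hb : cd.SameB p p' dir)
    (hk : cd.key dir p = cd.key dir p') (R : ℕ) (ρ : ℝ) (N : ℕ)
    (ab : cd.CodeN J × cd.CodeN J) :
    cd.coefN R ρ N m dir ab p = cd.coefN R ρ N m dir ab p' := by
  have hF : cd.FN p = cd.FN p' := congrArg (fun z => z.2.1) hk
  have hL : ∀ i, 1 ≤ i → i < m → cd.LamN p i = cd.LamN p' i := fun i h1 h2 => by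
    rw [← cd.lamOf_key dir p h1 h2, ← cd.lamOf_key dir p' h1 h2, hk]
  have hA : cd.Lsp p N = cd.Lsp p' N := hb.lsp cd hc N
  have hT : cd.TypF p R ρ N ↔ cd.TypF p' R ρ N := by
    constructor
    · rintro ⟨h1, h2⟩
      rw [hF] at h1 h2
      rw [hA] at h2
      exact ⟨h1, h2⟩
    · rintro ⟨h1, h2⟩
      rw [← hF] at h1 h2
      rw [← hA] at h2
      exact ⟨h1, h2⟩
  have hC := cd.condN_congr (m := m) hF hL hm ab.1 ab.2
  have hS := cd.scN_congr (m := m) hF hL (cd.Lsp p N) ab.1 ab.2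
  have hn : cd.nZN p (m - 1) = cd.nZN p' (m - 1) := by
    rw [cd.nZN_eq hp, cd.nZN_eq hp']
    exact cd.nzOfN_congr hF hL
  unfold coefN
  rw [hT, hC, hS, hA, hn]

/-- The set of the directions which are entries of degree at least `N`. -/
theorem coefN_ne {R : ℕ} {ρ : ℝ} {N : ℕ} {dir : Dir m ↪ J} {ab : cd.CodeN J × cd.CodeN J}
    {p : J → cd.Mk} (h : cd.coefN R ρ N m dir ab p ≠ 0) :
    cd.TypF p R ρ N ∧ cd.CondN (cd.FN p) (cd.LamN p) m ab.1 ab.2 ∧
      (∀ i, dir i ∈ cd.Lsp p N) ∧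
      Nonempty (cd.SuppN (cd.FN p) (cd.LflN (cd.FN p) (cd.LamN p)) m ab.1 ab.2 dir) := by
  unfold coefN at h
  by_cases h1 : cd.TypF p R ρ N ∧ cd.CondN (cd.FN p) (cd.LamN p) m ab.1 ab.2 ∧
      dir ∈ cd.ScN (cd.FN p) (cd.LamN p) (cd.Lsp p N) m ab.1 ab.2
  · exact ⟨h1.1, h1.2.1, h1.2.2.1, h1.2.2.2⟩
  · rw [if_neg h1] at h
    exact absurd rfl h

/-- The sum of the coefficients over the pairs of codes. -/
theorem sum_coefN_le [Finite V1] [Fintype (cd.CodeN J × cd.CodeN J)] {p : J → cd.Mk}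
    (hp : cd.LFactsN p) (R : ℕ) (ρ : ℝ) (N : ℕ) (dir : Dir m ↪ J) {c : ℕ} (hc0 : 0 < c)
    (hc : ∀ a b, cd.TypF p R ρ N → cd.CondN (cd.FN p) (cd.LamN p) m a b →
      c ≤ Nat.card (cd.ScN (cd.FN p) (cd.LamN p) (cd.Lsp p N) m a b)) :
    ∑ ab, |cd.coefN R ρ N m dir ab p| ≤ ((2 : ℝ) ^ R) ^ (m - 1 + 2) / c := by
  classical
  by_cases hT : cd.TypF p R ρ N
  · have hfin : Fintype (cd.FN p) := Fintype.ofFinite _
    have hFc : (Fintype.card (cd.FN p) : ℝ) ≤ 2 ^ R := by
      have := hT.small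
      rw [Nat.card_eq_fintype_card] at this
      exact_mod_cast this
    have hterm : ∀ ab : cd.CodeN J × cd.CodeN J, |cd.coefN R ρ N m dir ab p| ≤
        if ab.1 ∈ cd.FN p ∧ ab.2 ∈ cd.FN p then ((2 : ℝ) ^ R) ^ (m - 1) / c else 0 := by
      intro ab
      unfold coefN
      split_ifs with h1 h2 h2
      · rw [abs_of_nonneg (by positivity)]
        have h3 : (cd.nZN p (m - 1) : ℝ) ≤ ((2 : ℝ) ^ R) ^ (m - 1) := by
          have := cd.nZN_le hp hT.small (m - 1)
          exact_mod_cast this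
        have h4 : (c : ℝ) ≤
            Nat.card (cd.ScN (cd.FN p) (cd.LamN p) (cd.Lsp p N) m ab.1 ab.2) := by
          exact_mod_cast hc _ _ hT h1.2.1
        have h5 : (0 : ℝ) < c := by exact_mod_cast hc0
        exact div_le_div₀ (by positivity) h3 h5 h4
      · exact absurd ⟨cd.lflN_sub p m h1.2.1.1, h1.2.1.2.1⟩ h2
      · rw [abs_zero]
        positivity
      · rw [abs_zero]
    calc ∑ ab, |cd.coefN R ρ N m dir ab p| ≤ ∑ ab : cd.CodeN J × cd.CodeN J,
        (if ab.1 ∈ cd.FN p ∧ ab.2 ∈ cd.FN p then ((2 : ℝ) ^ R) ^ (m - 1) / c else 0) :=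
          Finset.sum_le_sum fun ab _ => hterm ab
      _ = ((Finset.univ.filter fun ab : cd.CodeN J × cd.CodeN J =>
          ab.1 ∈ cd.FN p ∧ ab.2 ∈ cd.FN p).card : ℝ) * (((2 : ℝ) ^ R) ^ (m - 1) / c) := by
          rw [← Finset.sum_filter, Finset.sum_const, nsmul_eq_mul]
      _ ≤ ((2 : ℝ) ^ R * 2 ^ R) * (((2 : ℝ) ^ R) ^ (m - 1) / c) := by
          refine mul_le_mul_of_nonneg_right ?_ (by positivity)
          have h6 : (Finset.univ.filter fun ab : cd.CodeN J × cd.CodeN J =>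
              ab.1 ∈ cd.FN p ∧ ab.2 ∈ cd.FN p).card ≤
              Fintype.card (cd.FN p × cd.FN p) := by
            rw [← Fintype.card_coe]
            refine Fintype.card_le_of_injective
              (fun ab => (⟨ab.1.1, (Finset.mem_filter.1 ab.2).2.1⟩,
                ⟨ab.1.2, (Finset.mem_filter.1 ab.2).2.2⟩)) ?_
            intro ab ab' h
            apply Subtype.ext
            rw [Prod.mk.injEq, Subtype.mk.injEq, Subtype.mk.injEq] at h
            exact Prod.ext h.1 h.2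
          rw [Fintype.card_prod] at h6
          calc ((Finset.univ.filter fun ab : cd.CodeN J × cd.CodeN J =>
              ab.1 ∈ cd.FN p ∧ ab.2 ∈ cd.FN p).card : ℝ) ≤
              ((Fintype.card (cd.FN p) * Fintype.card (cd.FN p) : ℕ) : ℝ) := by exact_mod_cast h6
            _ ≤ 2 ^ R * 2 ^ R := by
              push_cast
              exact mul_le_mul hFc hFc (Nat.cast_nonneg _) (by positivity)
      _ = _ := by
          rw [pow_add]
          ring
  · have h1 : ∀ ab : cd.CodeN J × cd.CodeN J, cd.coefN R ρ N m dir ab p = 0 := by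
      intro ab
      unfold coefN
      rw [if_neg fun h => hT h.1]
    simp only [h1, abs_zero, Finset.sum_const_zero]
    positivity

open Classical in
/-- The independent part of a typical vector as a sum over the directions. -/
theorem indN_eq [Finite V1] [Fintype (cd.CodeN J × cd.CodeN J)] {p : J → cd.Mk} (R : ℕ) (ρ : ℝ)
    (N : ℕ) (hT : cd.TypF p R ρ N)
    (hc : ∀ a b, cd.CondN (cd.FN p) (cd.LamN p) m a b →
      0 < Nat.card (cd.ScN (cd.FN p) (cd.LamN p) (cd.Lsp p N) m a b)) :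
    cd.indN p m = ∑ dir : Dir m ↪ J, ∑ ab, cd.coefN R ρ N m dir ab p *
      (-1 : ℝ) ^ (cd.FFN p m ab.1 ab.2).val := by
  rw [Finset.sum_comm]
  unfold indN
  rw [finsum_eq_sum_of_fintype, Finset.mul_sum]
  refine Finset.sum_congr rfl fun ab _ => ?_
  rw [← Finset.sum_mul]
  by_cases h1 : cd.CondN (cd.FN p) (cd.LamN p) m ab.1 ab.2
  · rw [if_pos h1]
    have h2 : ∑ dir : Dir m ↪ J, cd.coefN R ρ N m dir ab p = cd.nZN p (m - 1) := by
      have h3 : ∀ dir : Dir m ↪ J, cd.coefN R ρ N m dir ab p =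
          if dir ∈ cd.ScN (cd.FN p) (cd.LamN p) (cd.Lsp p N) m ab.1 ab.2 then
            (cd.nZN p (m - 1) : ℝ) /
              Nat.card (cd.ScN (cd.FN p) (cd.LamN p) (cd.Lsp p N) m ab.1 ab.2) else 0 := by
        intro dir
        unfold coefN
        by_cases h4 : dir ∈ cd.ScN (cd.FN p) (cd.LamN p) (cd.Lsp p N) m ab.1 ab.2
        · rw [if_pos ⟨hT, h1, h4⟩, if_pos h4]
        · rw [if_neg fun h => h4 h.2.2, if_neg h4]
      rw [Finset.sum_congr rfl fun dir _ => h3 dir, ← Finset.sum_filter, Finset.sum_const,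
        nsmul_eq_mul]
      have h5 : (Finset.univ.filter fun dir : Dir m ↪ J =>
          dir ∈ cd.ScN (cd.FN p) (cd.LamN p) (cd.Lsp p N) m ab.1 ab.2).card =
          Nat.card (cd.ScN (cd.FN p) (cd.LamN p) (cd.Lsp p N) m ab.1 ab.2) := by
        rw [Nat.card_eq_fintype_card, Fintype.card_subtype]
      rw [h5]
      have h6 : (Nat.card (cd.ScN (cd.FN p) (cd.LamN p) (cd.Lsp p N) m ab.1 ab.2) : ℝ) ≠ 0 := by
        have := hc _ _ h1
        positivity
      field_simp
    rw [h2]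
  · rw [if_neg h1, mul_zero]
    have h2 : ∀ dir : Dir m ↪ J, cd.coefN R ρ N m dir ab p = 0 := by
      intro dir
      unfold coefN
      rw [if_neg fun h => h1 h.2.1]
    rw [Finset.sum_congr rfl fun dir _ => h2 dir, Finset.sum_const_zero, zero_mul]

end coef

end Pool.Agent.SmN.CData
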