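import Pool.Agent.Lib.SmN.L.Level
import Pool.Agent.Lib.SmN.L.Block

/-!
# SmN, block L: the independent part of the recursion is small on every grid
-/

set_option autoImplicit false

open Finset

namespace Pool.Agent.SmN.CData

variable {G V V1 Pl : Type} [Group G] [AddCommGroup V] [DistribMulAction G V]
  [AddCommGroup V1] [Module (ZMod 2) V1] {S : Sys G V V1 Pl} {X : PSys} (cd : CData S X)

theorem finite_MPts (hfin : ∀ d, Finite (X.Of d)) (T : Finset ℕ) : Finite (cd.MPts T) := by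
  have : ∀ t : T, Finite (X.Of t × {g : G // g ∈ cd.R}) := fun t => by
    have := hfin t
    infer_instance
  exact Pi.finite

/-- The numerical estimate for the number of directions against the number of admissible ones. -/
theorem num_dir {m nJ : ℕ} {ρ : ℝ} (hρ : 0 < ρ) (h : 2 * ((m : ℝ) + 2) ≤ ρ * nJ) (hJ : 0 < nJ) :
    0 < (⌈ρ * nJ⌉₊ - (m + 2)) ^ (m + 2) ∧
      ((nJ : ℝ) ^ (m + 2)) / ((⌈ρ * nJ⌉₊ - (m + 2) : ℕ) ^ (m + 2) : ℕ) ≤ (2 / ρ) ^ (m + 2) := by
  have h1 : ρ * nJ ≤ (⌈ρ * nJ⌉₊ : ℝ) := Nat.le_ceil _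
  have h2 : m + 2 < ⌈ρ * nJ⌉₊ := by
    have : ((m + 2 : ℕ) : ℝ) < (⌈ρ * nJ⌉₊ : ℝ) := by
      push_cast
      have : (0 : ℝ) ≤ m := Nat.cast_nonneg _
      linarith
    exact_mod_cast this
  have h3 : ρ * nJ / 2 ≤ ((⌈ρ * nJ⌉₊ - (m + 2) : ℕ) : ℝ) := by
    rw [Nat.cast_sub h2.le]
    push_cast
    linarith
  have hJ' : (0 : ℝ) < nJ := by exact_mod_cast hJ
  have h4 : (0 : ℝ) < ρ * nJ / 2 := by positivity
  refine ⟨pow_pos (by omega) _, ?_⟩
  have h5 : (0 : ℝ) < ((⌈ρ * nJ⌉₊ - (m + 2) : ℕ) : ℝ) := lt_of_lt_of_le h4 h3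
  rw [Nat.cast_pow, ← div_pow]
  refine pow_le_pow_left₀ (by positivity) ?_ _
  rw [div_le_div_iff₀ h5 hρ]
  linarith

open Classical in
/-- The independent part of the recursion is small on every grid. -/
theorem level_sumN [Finite V1] [Nontrivial V1] {q : ℕ} (hX : X.Ok q) (hS : S.Ok) (hc : cd.Ok)
    (r0 : {g : G // g ∈ cd.R}) (m : ℕ) (hm : 1 ≤ m)
    (hL : ∀ (J : Type) (_ : Fintype J) (_ : Nonempty J) (p : J → cd.Mk), cd.PVecN p →
      cd.LFactsN p)
    (hfr : cd.FrameThm) (hG : cd.GridThmN q m) (c0 : ℝ) (hc0 : 0 < c0) (R : ℕ) (ρ : ℝ)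
    (hρ : 0 < ρ) (η' : ℝ) (hη' : 0 < η') :
    ∃ n₀ : ℕ, ∀ n ≥ n₀, ∀ (Ds : Finset X.Pr) (T : Finset ℕ),
      X.degS Ds + ∑ t ∈ T, t = n → ((Ds.card + T.card : ℕ) : ℝ) ≤ 2 * Real.log n →
      (∀ t ∈ T, N0 n ≤ t) → (∀ P ∈ Ds, X.deg P < N0 n) → c0 * Real.log n ≤ T.card →
      |∑ᶠ x : {x : cd.MPts T // cd.TypF (cd.vec r0 Ds x) R ρ (N0 n)},
        cd.indN (cd.vec r0 Ds x.1) m| ≤ η' * Nat.card (cd.MPts T) := by
  set K1 : ℝ := (2 / ρ) ^ (m + 2) * ((2 : ℝ) ^ R) ^ (m - 1 + 2) with hK1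
  have hK1p : 0 < K1 := by positivity
  set Nc : ℕ := keyBound m R V1 with hNc
  set η : ℝ := η' / (2 * K1 * (Nc + 1)) with hη
  have hηp : 0 < η := by positivity
  set ε'' : ℝ := η' / (2 * K1 * (m + 2)) with hε''
  have hεp : 0 < ε'' := by positivity
  obtain ⟨n1, hn1⟩ := (cd.gridThmN_iff q m).1 hG R η hηp
  obtain ⟨n2, hn2⟩ := cd.small_le hX hS hc r0 m ε'' hεp
  obtain ⟨n3, hn3⟩ : ∃ n3 : ℕ, ∀ n ≥ n3, 2 * ((m : ℝ) + 2) / ρ + 1 ≤ c0 * Real.log n := by
    have h1 : Filter.Tendsto (fun n : ℕ => c0 * Real.log n) Filter.atTop Filter.atTop :=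
      (Real.tendsto_log_atTop.comp tendsto_natCast_atTop_atTop).const_mul_atTop hc0
    exact Filter.eventually_atTop.1 (h1.eventually_ge_atTop _)
  refine ⟨max n1 (max n2 n3), fun n hn Ds T hdeg hfew hlarge hsml hmany => ?_⟩
  have hnn1 : n1 ≤ n := le_trans (le_max_left _ _) hn
  have hnn2 : n2 ≤ n := le_trans (le_trans (le_max_left _ _) (le_max_right _ _)) hn
  have hnn3 : n3 ≤ n := le_trans (le_trans (le_max_right _ _) (le_max_right _ _)) hn
  have hTc : 2 * ((m : ℝ) + 2) / ρ + 1 ≤ T.card := (hn3 n hnn3).trans hmany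
  have hJc : Nat.card (JG Ds T) = Ds.card + T.card := by
    rw [Nat.card_sum, Nat.card_eq_fintype_card, Nat.card_eq_fintype_card, Fintype.card_coe,
      Fintype.card_coe]
  set nJ : ℕ := Nat.card (JG Ds T) with hnJ
  have hTJ : (T.card : ℝ) ≤ nJ := by
    rw [hJc]
    push_cast
    have : (0 : ℝ) ≤ (Ds.card : ℝ) := Nat.cast_nonneg _
    linarith
  have hJ1 : 2 * ((m : ℝ) + 2) ≤ ρ * nJ := by
    have h1 : 2 * ((m : ℝ) + 2) / ρ ≤ nJ := by linarith
    rw [div_le_iff₀ hρ] at h1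
    linarith [mul_comm (nJ : ℝ) ρ]
  have hJpos : 0 < nJ := by
    have h1 : (0 : ℝ) < nJ := by
      have : (0 : ℝ) ≤ 2 * ((m : ℝ) + 2) / ρ := by positivity
      linarith
    exact_mod_cast h1
  obtain ⟨hcpos, hcle⟩ := num_dir (m := m) hρ hJ1 hJpos
  set c : ℕ := (⌈ρ * nJ⌉₊ - (m + 2)) ^ (m + 2) with hcdef
  have hneJ : Nonempty (JG Ds T) := (Nat.card_pos_iff.1 hJpos).1
  have hMf : Finite (cd.MPts T) := cd.finite_MPts hX.fin T
  have hMF : Fintype (cd.MPts T) := Fintype.ofFinite _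
  have hABF : Fintype (cd.CodeN (JG Ds T) × cd.CodeN (JG Ds T)) := Fintype.ofFinite _
  have hpv : ∀ x : cd.MPts T, cd.PVecN (cd.vec r0 Ds x) := fun x =>
    cd.pvec_vec r0 hlarge hsml x
  have hLx : ∀ x : cd.MPts T, cd.LFactsN (cd.vec r0 Ds x) := fun x =>
    hL _ inferInstance hneJ _ (hpv x)
  have hdegx : ∀ x : cd.MPts T, cd.degN (cd.vec r0 Ds x) = n := fun x => by
    rw [cd.degN_vecL r0 x, hdeg]
  -- large entries are in the second half
  have hinr : ∀ (x : cd.MPts T) (j : JG Ds T), j ∈ cd.Lsp (cd.vec r0 Ds x) (N0 n) →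
      ∃ t, j = Sum.inr t := by
    rintro x (P | t) hj
    · exfalso
      have h1 := hj.1
      exact absurd (hsml P.1 P.2) (not_lt.mpr h1)
    · exact ⟨t, rfl⟩
  -- admissible choices
  have hSc : ∀ (x : cd.MPts T) (a b : cd.CodeN (JG Ds T)),
      cd.TypF (cd.vec r0 Ds x) R ρ (N0 n) →
      cd.CondN (cd.FN (cd.vec r0 Ds x)) (cd.LamN (cd.vec r0 Ds x)) m a b →
      c ≤ Nat.card (cd.ScN (cd.FN (cd.vec r0 Ds x)) (cd.LamN (cd.vec r0 Ds x))
        (cd.Lsp (cd.vec r0 Ds x) (N0 n)) m a b) := by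
    intro x a b hT hcond
    obtain ⟨B⟩ := (hLx x).basis m hm a hcond.1 b hcond.2.1 hcond.2.2.1
    exact cd.card_ScN_ge hS hT B
  let rr : (Dir m ↪ JG Ds T) → Setoid (cd.MPts T) := fun d =>
    { r := fun x y => cd.SameB (cd.vec r0 Ds x) (cd.vec r0 Ds y) d
      iseqv := ⟨fun _ => SameB.refl cd, fun h => h.symm cd, fun h h' => h.trans cd h'⟩ }
  let cl : (Dir m ↪ JG Ds T) → cd.MPts T → cd.KeyT (JG Ds T) m := fun d x =>
    cd.key d (cd.vec r0 Ds x)
  let g : cd.CodeN (JG Ds T) × cd.CodeN (JG Ds T) → cd.MPts T → ℝ := fun ab x =>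
    (-1 : ℝ) ^ (cd.FFN (cd.vec r0 Ds x) m ab.1 ab.2).val
  let coef : (Dir m ↪ JG Ds T) → cd.CodeN (JG Ds T) × cd.CodeN (JG Ds T) → cd.MPts T → ℝ :=
    fun d ab x => cd.coefN R ρ (N0 n) m d ab (cd.vec r0 Ds x)
  let sm : (Dir m ↪ JG Ds T) → Set (cd.MPts T) := fun d =>
    {x | (∀ i, ∃ t, d i = Sum.inr t) ∧ ∃ i, (Nat.card (cd.XB (cd.vec r0 Ds x) d i) : ℝ) <
      (q : ℝ) ^ (9 * X.deg (cd.vec r0 Ds x (d i)).1 / 10)}
  have hdirok : ∀ (x : cd.MPts T) (d : Dir m ↪ JG Ds T),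
      (∀ i, d i ∈ cd.Lsp (cd.vec r0 Ds x) (N0 n)) → cd.DirOk (cd.vec r0 Ds x) d := by
    intro x d hd
    refine ⟨hpv x, ?_, fun i => ?_, fun i j hij => ?_, fun i => (hd i).2⟩
    · rw [hdegx, ← hnJ, hJc]
      exact hfew
    · rw [hdegx]
      exact (hd i).1
    · obtain ⟨t, ht⟩ := hinr x _ (hd i)
      rw [ht, cd.deg_inr r0] at hij
      rcases j with P | u
      · exfalso
        have h1 : X.deg P.1 = t := hij
        have h2 := hsml P.1 P.2
        rw [h1] at h2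
        exact absurd (hlarge t.1 t.2) (not_le.mpr h2)
      · rw [cd.deg_inr r0] at hij
        rw [ht]
        exact congrArg Sum.inr (Subtype.ext hij)
  have hmain := block_avg rr cl g (fun a x => by
      change |(-1 : ℝ) ^ _| ≤ 1
      rw [abs_pow, abs_neg, abs_one, one_pow])
    coef (fun d ab x y hxy hk => cd.coefN_congr hm hc (hLx x) (hLx y) hxy hk R ρ (N0 n) ab)
    (((2 : ℝ) ^ R) ^ (m - 1 + 2) / c) η ((m + 2) * ε'') (by positivity) hηp.le Nc
    (fun d x => cd.sum_coefN_le (hLx x) R ρ (N0 n) d hcpos (fun a b hT hcond =>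
      hSc x a b hT hcond))
    (fun d x => by
      refine cd.card_keys _ R ?_ ?_
      · rintro k ⟨y, _, rfl, ab, hab⟩
        obtain ⟨hT, _⟩ := cd.coefN_ne hab
        exact ⟨hT.small, fun i => cd.lamN_sub _ _⟩
      · rintro k k' ⟨y, hy, rfl, ab, hab⟩ ⟨y', hy', rfl, ab', hab'⟩ hkk
        obtain ⟨hT, hcond, hd, hsupp⟩ := cd.coefN_ne hab
        have hdx : ∀ i, d i ∈ cd.Lsp (cd.vec r0 Ds x) (N0 n) := fun i => by
          rw [SameB.lsp cd hc hy]
          exact hd i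
        obtain ⟨z, hz⟩ := SameB.eq_replN cd hy
        obtain ⟨z', hz'⟩ := SameB.eq_replN cd hy'
        have h1 := hfr (JG Ds T) inferInstance m (cd.vec r0 Ds x) d (hdirok x d hdx) z z'
        rw [← hz, ← hz'] at h1
        exact h1 ((cd.dirEq_iff d _ _).2 hkk))
    sm (fun d x y hxy => by
      have h1 : ∀ i, Nat.card (cd.XB (cd.vec r0 Ds x) d i) =
          Nat.card (cd.XB (cd.vec r0 Ds y) d i) := fun i => SameB.card_XB cd hxy i
      constructor
      · rintro ⟨h2, i, h3⟩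
        refine ⟨h2, i, ?_⟩
        rw [← h1, hxy.deg]
        exact h3
      · rintro ⟨h2, i, h3⟩
        refine ⟨h2, i, ?_⟩
        rw [h1, ← hxy.deg]
        exact h3)
    (fun d => by
      by_cases hd : ∀ i, ∃ t, d i = Sum.inr t
      · choose t ht using hd
        have h1 : (Nat.card (sm d) : ℝ) ≤ ∑ i : Dir m, (Nat.card {x : cd.MPts T //
            (Nat.card (cd.XB (cd.vec r0 Ds x) d i) : ℝ) < (q : ℝ) ^ (9 * (t i : ℕ) / 10)} : ℝ) := by
          rw [← Nat.cast_sum, ← Nat.card_sigma]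
          have h2 : Nat.card (sm d) ≤ Nat.card (Σ i : Dir m, {x : cd.MPts T //
            (Nat.card (cd.XB (cd.vec r0 Ds x) d i) : ℝ) < (q : ℝ) ^ (9 * (t i : ℕ) / 10)}) := by
            refine Nat.card_le_card_of_injective (fun x => ⟨x.2.2.choose, x.1, ?_⟩) ?_
            · have h3 := x.2.2.choose_spec
              rw [ht, cd.deg_inr r0] at h3
              exact h3
            · intro x y hxy
              rw [Sigma.mk.injEq] at hxy
              obtain ⟨h3, h4⟩ := hxy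
              apply Subtype.ext
              have h5 : ∀ (i j : Dir m) (a : {x : cd.MPts T //
                  (Nat.card (cd.XB (cd.vec r0 Ds x) d i) : ℝ) < (q : ℝ) ^ (9 * (t i : ℕ) / 10)})
                  (b : {x : cd.MPts T //
                  (Nat.card (cd.XB (cd.vec r0 Ds x) d j) : ℝ) < (q : ℝ) ^ (9 * (t j : ℕ) / 10)}),
                  i = j → HEq a b → a.1 = b.1 := by
                rintro i j a b rfl h
                rw [eq_of_heq h]
              exact h5 _ _ _ _ h3 h4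
          exact_mod_cast h2
        refine h1.trans ?_
        have h6 : ∀ i : Dir m, (Nat.card {x : cd.MPts T //
            (Nat.card (cd.XB (cd.vec r0 Ds x) d i) : ℝ) < (q : ℝ) ^ (9 * (t i : ℕ) / 10)} : ℝ) ≤
            ε'' * Nat.card (cd.MPts T) := fun i =>
          hn2 n hnn2 Ds T hfew hlarge d i (t i) (ht i)
        refine (Finset.sum_le_sum fun i _ => h6 i).trans ?_
        rw [Finset.sum_const, nsmul_eq_mul, Finset.card_univ, Fintype.card_option,
          Fintype.card_option, Fintype.card_fin]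
        push_cast
        apply le_of_eq
        ring
      · have h1 : sm d = ∅ := by
          ext x
          constructor
          · rintro ⟨h2, _⟩
            exact absurd h2 hd
          · exact fun h => absurd h (Set.notMem_empty x)
        rw [h1, Nat.card_of_isEmpty, Nat.cast_zero]
        positivity)
    (fun d ab x hx hab => by
      obtain ⟨hT, hcond, hd, hsupp⟩ := cd.coefN_ne hab
      have hdt : ∀ i, ∃ t, d i = Sum.inr t := fun i => hinr x _ (hd i)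
      have hbig : ∀ i, (q : ℝ) ^ (9 * X.deg (cd.vec r0 Ds x (d i)).1 / 10) ≤
          Nat.card (cd.XB (cd.vec r0 Ds x) d i) := by
        intro i
        by_contra h1
        exact hx ⟨hdt, i, not_le.mp h1⟩
      exact cd.block_bound r0 (hn1) x d ab.1 ab.2 hdt (hdirok x d hd)
        (by rw [hdegx]; exact hnn1) hT.small hcond hsupp hbig)
  -- the sum over the typical points
  have hsum : ∑ᶠ x : {x : cd.MPts T // cd.TypF (cd.vec r0 Ds x) R ρ (N0 n)},
        cd.indN (cd.vec r0 Ds x.1) m = ∑ x, ∑ d, ∑ a, coef d a x * g a x := by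
    have h1 : ∀ x : cd.MPts T, ∑ d, ∑ a, coef d a x * g a x =
        if cd.TypF (cd.vec r0 Ds x) R ρ (N0 n) then cd.indN (cd.vec r0 Ds x) m else 0 := by
      intro x
      by_cases hT : cd.TypF (cd.vec r0 Ds x) R ρ (N0 n)
      · rw [if_pos hT, cd.indN_eq R ρ (N0 n) hT fun a b hcond =>
          lt_of_lt_of_le hcpos (hSc x a b hT hcond)]
      · rw [if_neg hT]
        refine Finset.sum_eq_zero fun d _ => Finset.sum_eq_zero fun a _ => ?_
        have h2 : coef d a x = 0 := by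
          change cd.coefN R ρ (N0 n) m d a (cd.vec r0 Ds x) = 0
          unfold coefN
          rw [if_neg fun h => hT h.1]
        rw [h2, zero_mul]
    rw [Finset.sum_congr rfl fun x _ => h1 x, ← Finset.sum_filter, finsum_eq_sum_of_fintype]
    have h4 : ∀ y : cd.MPts T, y ∈ Finset.univ.filter (fun x : cd.MPts T => cd.TypF (cd.vec r0 Ds x) R ρ (N0 n)) ↔
        cd.TypF (cd.vec r0 Ds y) R ρ (N0 n) := fun _ =>
      ⟨fun h => (Finset.mem_filter.1 h).2, fun h => Finset.mem_filter.2 ⟨Finset.mem_univ _, h⟩⟩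
    exact (Finset.sum_subtype _ h4 (fun x => cd.indN (cd.vec r0 Ds x) m)).symm
  rw [hsum]
  refine hmain.trans ?_
  refine mul_le_mul_of_nonneg_right ?_ (Nat.cast_nonneg _)
  -- numerics
  have hDr : (Nat.card (Dir m ↪ JG Ds T) : ℝ) ≤ (nJ : ℝ) ^ (m + 2) := by
    have h1 : Nat.card (Dir m ↪ JG Ds T) ≤ Nat.card (Dir m → JG Ds T) :=
      Nat.card_le_card_of_injective (fun f => (f : Dir m → JG Ds T)) DFunLike.coe_injective
    rw [Nat.card_fun, Nat.card_eq_fintype_card (α := Dir m), Fintype.card_option,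
      Fintype.card_option, Fintype.card_fin, ← hnJ] at h1
    exact_mod_cast h1
  have hcR : (0 : ℝ) < c := by exact_mod_cast hcpos
  have h7 : (Nc : ℝ) * η + (m + 2) * ε'' ≤ η' / K1 := by
    have h8 : (Nc : ℝ) * η ≤ η' / (2 * K1) := by
      rw [hη, ← mul_div_assoc, div_le_div_iff₀ (by positivity) (by positivity)]
      have : (0 : ℝ) ≤ Nc := Nat.cast_nonneg _
      nlinarith [mul_pos hη' hK1p]
    have h9 : ((m : ℝ) + 2) * ε'' = η' / (2 * K1) := by
      rw [hε'']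
      field_simp
    rw [h9]
    have h10 : η' / K1 = η' / (2 * K1) + η' / (2 * K1) := by
      field_simp
      ring
    rw [h10]
    linarith
  have h8 : 0 ≤ (Nc : ℝ) * η + (m + 2) * ε'' := by positivity
  calc (Nat.card (Dir m ↪ JG Ds T) : ℝ) *
        (((2 : ℝ) ^ R) ^ (m - 1 + 2) / c * ((Nc : ℝ) * η + (m + 2) * ε''))
      ≤ (nJ : ℝ) ^ (m + 2) * (((2 : ℝ) ^ R) ^ (m - 1 + 2) / c * ((Nc : ℝ) * η + (m + 2) * ε'')) :=
        mul_le_mul_of_nonneg_right hDr (by positivity)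
    _ = ((nJ : ℝ) ^ (m + 2) / c) * (((2 : ℝ) ^ R) ^ (m - 1 + 2) *
          ((Nc : ℝ) * η + (m + 2) * ε'')) := by ring
    _ ≤ (2 / ρ) ^ (m + 2) * (((2 : ℝ) ^ R) ^ (m - 1 + 2) *
          ((Nc : ℝ) * η + (m + 2) * ε'')) :=
        mul_le_mul_of_nonneg_right (by exact_mod_cast hcle) (by positivity)
    _ = K1 * ((Nc : ℝ) * η + (m + 2) * ε'') := by rw [hK1]; ring
    _ ≤ K1 * (η' / K1) := mul_le_mul_of_nonneg_left h7 hK1p.le
    _ = η' := by field_simp

end Pool.Agent.SmN.CData
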