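import Pool.Agent.Lib.SmN.L.LevelSum
import Pool.Agent.Lib.Sm.L.Markov

/-!
# SmN, block L: the recursion and Markov's inequality on a grid
-/

set_option autoImplicit false

open Finset

namespace Pool.Agent.SmN.CData

variable {G V V1 Pl : Type} [Group G] [AddCommGroup V] [DistribMulAction G V]
  [AddCommGroup V1] [Module (ZMod 2) V1] {S : Sys G V V1 Pl} {X : PSys} (cd : CData S X)

section one

variable {J : Type} [Fintype J]

theorem FN_sub_SelpN (p : J → cd.Mk) : cd.FN p ⊆ cd.SelpN p := by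
  rintro c ⟨h1, h2⟩
  exact ⟨h1, fun j => h2.2 _⟩

theorem TypN.typF [Finite V1] {p : J → cd.Mk} {R N : ℕ} {ρ : ℝ} (h : cd.TypN p R ρ N) :
    cd.TypF p R ρ N := by
  refine ⟨le_trans (Nat.card_mono (Set.toFinite _) (cd.FN_sub_SelpN p)) h.small, ?_⟩
  intro r c hc hi w
  refine (h.generic r c (fun i => cd.FN_sub_SelpN p (hc i)) hi w).trans (le_of_eq ?_)
  congr 1
  exact Nat.card_congr (Equiv.subtypeEquivRight fun j => by
    constructor
    · rintro ⟨h1, h2, h3⟩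
      exact ⟨⟨h1, h2⟩, h3⟩
    · rintro ⟨⟨h1, h2⟩, h3⟩
      exact ⟨h1, h2, h3⟩)

/-- The recursion with the independent part. -/
theorem recur_indN {p : J → cd.Mk} (h : cd.LFactsN p) {i : ℕ} (hi : 1 ≤ i) {M : ℝ}
    (hM : M = Nat.card V1) (hM0 : 0 < M) :
    (cd.nZN p (i + 1) : ℝ) / M ^ (i + 1) ≤ 3 * ((cd.nZN p i : ℝ) / M ^ i) +
      cd.indN p i / M ^ (i + 1) := by
  classical
  have h1 := h.recur i hi
  have h2 : (cd.nZN p (i - 1) : ℝ) * ∑ᶠ ab : cd.CodeN J × cd.CodeN J,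
      (if ab.1 ∈ cd.LflN (cd.FN p) (cd.LamN p) i ∧ ab.2 ∈ cd.FN p ∧ cd.Indep2N ab.1 ab.2 ∧
        cd.PerpN (cd.LamN p) (i - 1) ab.2 then (-1 : ℝ) ^ (cd.FFN p i ab.1 ab.2).val else 0) =
      cd.indN p i := by
    unfold indN
    congr 1
    refine finsum_congr fun ab => ?_
    by_cases hc : cd.CondN (cd.FN p) (cd.LamN p) i ab.1 ab.2
    · have hc' := hc
      unfold CondN at hc'
      rw [if_pos hc, if_pos hc']
    · have hc' := hc
      unfold CondN at hc'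
      rw [if_neg hc, if_neg hc']
  have h3 : (cd.nZN p (i + 1) : ℝ) ≤ 3 * M * cd.nZN p i + cd.indN p i := by
    rw [← h2, hM]
    convert h1
  have h4 : (0 : ℝ) < M ^ (i + 1) := by positivity
  calc (cd.nZN p (i + 1) : ℝ) / M ^ (i + 1)
      ≤ (3 * M * cd.nZN p i + cd.indN p i) / M ^ (i + 1) :=
        div_le_div_of_nonneg_right h3 h4.le
    _ = _ := by
        rw [pow_succ]
        field_simp

theorem nZN_one {p : J → cd.Mk} (h : cd.LFactsN p) : cd.nZN p 1 = Nat.card (cd.FN p) := by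
  have h1 := h.card_succ 0
  rw [h.card_zero, one_mul] at h1
  exact h1

end one

open Classical in
theorem card_le_add {D : Type} [Fintype D] (A B : D → Prop) (t : Finset D)
    (h : ∀ x, A x → B x ∨ x ∈ t) :
    Nat.card {x : D // A x} ≤ Nat.card {x : D // B x} + t.card := by
  rw [Nat.card_eq_fintype_card, Nat.card_eq_fintype_card, Fintype.card_subtype,
    Fintype.card_subtype]
  refine le_trans (Finset.card_le_card (t := (Finset.univ.filter fun x : D => B x) ∪ t) ?_)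
    (Finset.card_union_le _ _)
  intro x hx
  rw [Finset.mem_union]
  rcases h x (Finset.mem_filter.1 hx).2 with h1 | h1
  · exact Or.inl (Finset.mem_filter.2 ⟨Finset.mem_univ _, h1⟩)
  · exact Or.inr h1

open Classical in
theorem markov_gen {D : Type} (s : Finset D) (Nz : D → ℕ) (M B Y : ℝ) (hM : 0 < M) (hB : 0 ≤ B)
    (hs : (s.card : ℝ) ≤ Y) (m : ℕ) (hm : 1 ≤ m)
    (h : ∑ x ∈ s, (Nz x : ℝ) / M ^ m ≤ 3 ^ (m - 1) * (s.card * B + Y)) :
    ((s.filter fun x => ¬ (Nz x : ℝ) < (4 * M) ^ m).card : ℝ) ≤ (3 / 4) ^ m * (B + 1) * Y := by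
  have hY0 : 0 ≤ Y := le_trans (Nat.cast_nonneg _) hs
  have h2 : ((s.filter fun x => ¬ (Nz x : ℝ) < (4 * M) ^ m).card : ℝ) * 4 ^ m ≤
      ∑ x ∈ s, (Nz x : ℝ) / M ^ m := by
    rw [← nsmul_eq_mul, ← Finset.sum_const]
    refine le_trans (Finset.sum_le_sum (g := fun x => (Nz x : ℝ) / M ^ m) ?_)
      (Finset.sum_le_sum_of_subset_of_nonneg (Finset.filter_subset _ _) fun x _ _ => by positivity)
    intro x hx
    have h3 : (4 * M) ^ m ≤ (Nz x : ℝ) := not_lt.1 (Finset.mem_filter.1 hx).2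
    rw [le_div_iff₀ (by positivity), ← mul_pow]
    exact h3
  have h3 : (3 : ℝ) ^ (m - 1) ≤ 3 ^ m := pow_le_pow_right₀ (by norm_num) (by omega)
  have h4 : (s.card : ℝ) * B + Y ≤ (B + 1) * Y := by nlinarith
  have h5 : ((s.filter fun x => ¬ (Nz x : ℝ) < (4 * M) ^ m).card : ℝ) * 4 ^ m ≤
      3 ^ m * ((B + 1) * Y) :=
    le_trans h2 (le_trans h (mul_le_mul h3 h4 (by positivity) (by positivity)))
  have h6 : ((s.filter fun x => ¬ (Nz x : ℝ) < (4 * M) ^ m).card : ℝ) ≤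
      3 ^ m * ((B + 1) * Y) / 4 ^ m := by
    rw [le_div_iff₀ (by positivity)]
    exact h5
  refine le_trans h6 (le_of_eq ?_)
  rw [div_pow]
  ring

open Classical in
/-- Almost all points of every nice grid have small Selmer groups of level `m`. -/
theorem grid_mainN [Finite V1] [Nontrivial V1] {q : ℕ} (hX : X.Ok q) (hS : S.Ok) (hc : cd.Ok)
    (r0 : {g : G // g ∈ cd.R})
    (hL : ∀ (J : Type) (_ : Fintype J) (_ : Nonempty J) (p : J → cd.Mk), cd.PVecN p →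
      cd.LFactsN p)
    (hfr : cd.FrameThm) (hG : ∀ m, 1 ≤ m → cd.GridThmN q m) (m0 : ℕ) (c0 : ℝ) (hc0 : 0 < c0)
    (hJ : cd.JThm m0 c0 r0) (ε : ℝ) (hε : 0 < ε) :
    ∃ δ : ℝ, 0 < δ ∧ ∃ m₁ : ℕ, ∀ m ≥ m₁, ∃ n₀ : ℕ, ∀ n ≥ n₀, ∀ (Ds : Finset X.Pr)
      (T : Finset ℕ), GrN X m0 c0 δ n Ds T →
      (Nat.card {x : cd.MPts T // ¬ cd.nZN (cd.vec r0 Ds x) m < (4 * Nat.card V1) ^ m} : ℝ) ≤
        ε * Nat.card (cd.MPts T) := by
  obtain ⟨R, ρ, δ, hρ, hδ, nJ, hJ1⟩ := hJ (ε / 2) (by positivity)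
  refine ⟨δ, hδ, ?_⟩
  set B : ℝ := 2 ^ R with hB
  have hB0 : 0 < B := by positivity
  obtain ⟨m₁, hm₁⟩ : ∃ m₁ : ℕ, ∀ m ≥ m₁, (3 / 4 : ℝ) ^ m * (B + 1) ≤ ε / 2 := by
    have h1 : 0 < ε / 2 / (B + 1) := by positivity
    obtain ⟨m₁, hm₁⟩ := exists_pow_lt_of_lt_one h1 (by norm_num : (3 / 4 : ℝ) < 1)
    refine ⟨m₁, fun m hm => ?_⟩
    have h3 : (3 / 4 : ℝ) ^ m ≤ (3 / 4) ^ m₁ :=
      pow_le_pow_of_le_one (by norm_num) (by norm_num) hm
    have h4 : (3 / 4 : ℝ) ^ m ≤ ε / 2 / (B + 1) := h3.trans hm₁.le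
    rwa [le_div_iff₀ (by positivity)] at h4
  refine ⟨max m₁ 1, fun m hm => ?_⟩
  have hm1 : 1 ≤ m := le_trans (le_max_right _ _) hm
  have hmε := hm₁ m (le_trans (le_max_left _ _) hm)
  have hlev : ∀ j : ℕ, ∃ n₀ : ℕ, 1 ≤ j → ∀ n ≥ n₀, ∀ (Ds : Finset X.Pr) (T : Finset ℕ),
      X.degS Ds + ∑ t ∈ T, t = n → ((Ds.card + T.card : ℕ) : ℝ) ≤ 2 * Real.log n →
      (∀ t ∈ T, N0 n ≤ t) → (∀ P ∈ Ds, X.deg P < N0 n) → c0 * Real.log n ≤ T.card →
      |∑ᶠ x : {x : cd.MPts T // cd.TypF (cd.vec r0 Ds x) R ρ (N0 n)},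
        cd.indN (cd.vec r0 Ds x.1) j| ≤ 1 * Nat.card (cd.MPts T) := by
    intro j
    by_cases hj : 1 ≤ j
    · obtain ⟨n₀, h⟩ := cd.level_sumN hX hS hc r0 j hj hL hfr (hG j hj) c0 hc0 R ρ hρ 1 one_pos
      exact ⟨n₀, fun _ => h⟩
    · exact ⟨0, fun h => absurd h hj⟩
  choose nlev hnlev using hlev
  obtain ⟨n3, hn3⟩ : ∃ n3 : ℕ, ∀ n ≥ n3, 1 ≤ c0 * Real.log n := by
    have h1 : Filter.Tendsto (fun n : ℕ => c0 * Real.log n) Filter.atTop Filter.atTop :=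
      (Real.tendsto_log_atTop.comp tendsto_natCast_atTop_atTop).const_mul_atTop hc0
    exact Filter.eventually_atTop.1 (h1.eventually_ge_atTop _)
  refine ⟨max (max nJ ((Finset.range m).sup nlev)) n3, fun n hn Ds T hg => ?_⟩
  have hnJ : nJ ≤ n := le_trans (le_trans (le_max_left _ _) (le_max_left _ _)) hn
  have hnlev' : ∀ j, j < m → nlev j ≤ n := fun j hj =>
    le_trans (Finset.le_sup (f := nlev) (Finset.mem_range.2 hj))
      (le_trans (le_trans (le_max_right _ _) (le_max_left _ _)) hn)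
  have hn3' : 1 ≤ c0 * Real.log n := hn3 n (le_trans (le_max_right _ _) hn)
  have hTc : c0 * Real.log n ≤ T.card := hg.many.trans (by
    exact_mod_cast Finset.card_le_card (Finset.filter_subset _ _))
  have hTpos : 0 < T.card := by
    have : (0 : ℝ) < T.card := by linarith
    exact_mod_cast this
  have hneJ : Nonempty (JG Ds T) := by
    obtain ⟨t, ht⟩ := Finset.card_pos.1 hTpos
    exact ⟨Sum.inr ⟨t, ht⟩⟩
  have hMf : Finite (cd.MPts T) := cd.finite_MPts hX.fin T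
  have hMF : Fintype (cd.MPts T) := Fintype.ofFinite _
  have hLx : ∀ x : cd.MPts T, cd.LFactsN (cd.vec r0 Ds x) := fun x =>
    hL _ inferInstance hneJ _ (cd.pvec_vec r0 hg.large hg.sml x)
  set Y : ℝ := ((Nat.card (cd.MPts T) : ℕ) : ℝ) with hY
  have hY0 : 0 ≤ Y := Nat.cast_nonneg _
  set M : ℝ := ((Nat.card V1 : ℕ) : ℝ) with hM
  have hM1 : 1 ≤ M := by
    have : 0 < Nat.card V1 := Nat.card_pos
    have h2 : (1 : ℕ) ≤ Nat.card V1 := this
    rw [hM]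
    exact_mod_cast h2
  have hM0 : 0 < M := by linarith
  set s : Finset (cd.MPts T) := Finset.univ.filter fun x =>
    cd.TypF (cd.vec r0 Ds x) R ρ (N0 n) with hs
  have hscard : (s.card : ℝ) ≤ Y := by
    rw [hY, Nat.card_eq_fintype_card]
    exact_mod_cast Finset.card_le_univ s
  have hatyp : (Nat.card {x : cd.MPts T // ¬ cd.TypF (cd.vec r0 Ds x) R ρ (N0 n)} : ℝ) ≤
      ε / 2 * Y := by
    refine le_trans ?_ (hJ1 n hnJ Ds T hg)
    have h1 : Nat.card {x : cd.MPts T // ¬ cd.TypF (cd.vec r0 Ds x) R ρ (N0 n)} ≤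
        Nat.card {x : cd.MPts T // ¬ cd.TypN (cd.vec r0 Ds x) R ρ (N0 n)} :=
      Nat.card_le_card_of_injective (fun x => ⟨x.1, fun h => x.2 (TypN.typF cd h)⟩)
        fun x y h => Subtype.ext (congrArg (fun z : {x : cd.MPts T //
          ¬ cd.TypN (cd.vec r0 Ds x) R ρ (N0 n)} => z.1) h)
    exact_mod_cast h1
  -- the recursion
  have hrec := Sm.recursion_bound s
    (fun j x => (cd.nZN (cd.vec r0 Ds x) j : ℝ) / M ^ j)
    (fun j x => cd.indN (cd.vec r0 Ds x) j / M ^ (j + 1)) Y B hY0 m hm1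
    (fun j hj1 hj2 x hx => cd.recur_indN (hLx x) hj1 hM hM0)
    (fun j hj1 hj2 => by
      rw [← Finset.sum_div]
      have h1 := hnlev j hj1 n (hnlev' j hj2) Ds T hg.deg hg.few hg.large hg.sml hTc
      rw [one_mul, ← hY] at h1
      have h2 : ∑ x ∈ s, cd.indN (cd.vec r0 Ds x) j =
          ∑ᶠ x : {x : cd.MPts T // cd.TypF (cd.vec r0 Ds x) R ρ (N0 n)},
            cd.indN (cd.vec r0 Ds x.1) j := by
        rw [finsum_eq_sum_of_fintype]
        have h4 : ∀ y : cd.MPts T, y ∈ s ↔ cd.TypF (cd.vec r0 Ds y) R ρ (N0 n) := fun y =>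
          ⟨fun h => (Finset.mem_filter.1 h).2, fun h =>
            Finset.mem_filter.2 ⟨Finset.mem_univ _, h⟩⟩
        exact Finset.sum_subtype s h4 (fun x => cd.indN (cd.vec r0 Ds x) j)
      rw [h2]
      have h5 : (1 : ℝ) ≤ M ^ (j + 1) := one_le_pow₀ hM1
      rw [div_le_iff₀ (by positivity)]
      calc _ ≤ Y := (le_abs_self _).trans h1
        _ ≤ Y * M ^ (j + 1) := le_mul_of_one_le_right hY0 h5)
    (fun x hx => by
      rw [cd.nZN_one (hLx x), pow_one]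
      have h1 : (Nat.card (cd.FN (cd.vec r0 Ds x)) : ℝ) ≤ B := by
        have := (Finset.mem_filter.1 hx).2.small
        rw [hB]
        exact_mod_cast this
      exact (div_le_self (Nat.cast_nonneg _) hM1).trans h1)
  have hmar := markov_gen s (fun x => cd.nZN (cd.vec r0 Ds x) m) M B Y hM0 hB0.le hscard m hm1
    hrec
  have hle : Nat.card {x : cd.MPts T // ¬ cd.nZN (cd.vec r0 Ds x) m < (4 * Nat.card V1) ^ m} ≤
      Nat.card {x : cd.MPts T // ¬ cd.TypF (cd.vec r0 Ds x) R ρ (N0 n)} +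
        (s.filter fun x => ¬ (cd.nZN (cd.vec r0 Ds x) m : ℝ) < (4 * M) ^ m).card := by
    refine card_le_add _ _ _ fun x hx' => ?_
    by_cases ht : cd.TypF (cd.vec r0 Ds x) R ρ (N0 n)
    · right
      refine Finset.mem_filter.2 ⟨Finset.mem_filter.2 ⟨Finset.mem_univ _, ht⟩, ?_⟩
      intro hlt
      apply hx'
      have : (cd.nZN (cd.vec r0 Ds x) m : ℝ) < (((4 * Nat.card V1) ^ m : ℕ) : ℝ) := by
        push_cast
        exact hlt
      exact_mod_cast this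
    · exact Or.inl ht
  calc (Nat.card {x : cd.MPts T // ¬ cd.nZN (cd.vec r0 Ds x) m < (4 * Nat.card V1) ^ m} : ℝ)
      ≤ (Nat.card {x : cd.MPts T // ¬ cd.TypF (cd.vec r0 Ds x) R ρ (N0 n)} : ℝ) +
        ((s.filter fun x => ¬ (cd.nZN (cd.vec r0 Ds x) m : ℝ) < (4 * M) ^ m).card : ℝ) := by
          exact_mod_cast hle
    _ ≤ ε / 2 * Y + (3 / 4) ^ m * (B + 1) * Y := add_le_add hatyp hmar
    _ ≤ ε / 2 * Y + ε / 2 * Y := by
        have := mul_le_mul_of_nonneg_right hmε hY0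
        linarith
    _ = ε * Y := by ring

end Pool.Agent.SmN.CData
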