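import Pool.Agent.Lib.SmN.L.Key

/-!
# SmN, block L: the vector of a marked point, big blocks
-/

set_option autoImplicit false

open Finset

namespace Pool.Agent.SmN.CData

variable {G V V1 Pl : Type} [Group G] [AddCommGroup V] [DistribMulAction G V]
  [AddCommGroup V1] [Module (ZMod 2) V1] {S : Sys G V V1 Pl} {X : PSys} (cd : CData S X)

section repl

variable {J : Type} {m : ℕ} (p p' : J → cd.Mk) (dir : Dir m ↪ J)

theorem replN_dir (x : Dir m → cd.Mk) (i : Dir m) : cd.replN p dir x (dir i) = x i := by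
  have h : ∃ i', dir i' = dir i := ⟨i, rfl⟩
  rw [replN, dif_pos h]
  congr 1
  exact dir.injective h.choose_spec

theorem replN_off (x : Dir m → cd.Mk) {j : J} (h : ∀ i, dir i ≠ j) :
    cd.replN p dir x j = p j := by
  rw [replN, dif_neg]
  rintro ⟨i, hi⟩
  exact h i hi

/-- Two vectors are in the same big block. -/
structure SameB : Prop where
  off : ∀ j, (∀ i, dir i ≠ j) → p j = p' j
  deg : ∀ i, X.deg (p' (dir i)).1 = X.deg (p (dir i)).1
  kf : ∀ i, cd.kf (cd.phx (p' (dir i))) = cd.kf (cd.phx (p (dir i)))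
  ch : ∀ i j, (∀ i', dir i' ≠ j) →
    cd.ch (p j).1 (cd.phx (p' (dir i))) = cd.ch (p j).1 (cd.phx (p (dir i)))
  be : ∀ i j, (∀ i', dir i' ≠ j) → ∀ w, cd.Fx (p j) w →
    cd.bex (p j) w (cd.phx (p' (dir i))) = cd.bex (p j) w (cd.phx (p (dir i)))

variable {p p' dir}

theorem SameB.refl : cd.SameB p p dir :=
  ⟨fun _ _ => rfl, fun _ => rfl, fun _ => rfl, fun _ _ _ => rfl, fun _ _ _ _ _ => rfl⟩

theorem SameB.symm (h : cd.SameB p p' dir) : cd.SameB p' p dir :=
  ⟨fun j hj => (h.off j hj).symm, fun i => (h.deg i).symm, fun i => (h.kf i).symm,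
    fun i j hj => by rw [← h.off j hj]; exact (h.ch i j hj).symm,
    fun i j hj w hw => by
      rw [← h.off j hj] at hw ⊢
      exact (h.be i j hj w hw).symm⟩

theorem SameB.trans {p'' : J → cd.Mk} (h : cd.SameB p p' dir) (h' : cd.SameB p' p'' dir) :
    cd.SameB p p'' dir :=
  ⟨fun j hj => (h.off j hj).trans (h'.off j hj), fun i => (h'.deg i).trans (h.deg i),
    fun i => (h'.kf i).trans (h.kf i),
    fun i j hj => by
      have h1 := h'.ch i j hj
      rw [← h.off j hj] at h1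
      exact h1.trans (h.ch i j hj),
    fun i j hj w hw => by
      have h1 := h'.be i j hj w (by rw [← h.off j hj]; exact hw)
      rw [← h.off j hj] at h1
      exact h1.trans (h.be i j hj w hw)⟩

/-- The predicate defining `XB` is the same on a block. -/
theorem SameB.xb (h : cd.SameB p p' dir) (i : Dir m) (x : cd.Mk) :
    (X.deg x.1 = X.deg (p (dir i)).1 ∧
    cd.kf (cd.phx x) = cd.kf (cd.phx (p (dir i))) ∧
    ∀ j, (∀ i', dir i' ≠ j) →
      cd.ch (p j).1 (cd.phx x) = cd.ch (p j).1 (cd.phx (p (dir i))) ∧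
      ∀ w, cd.Fx (p j) w → cd.bex (p j) w (cd.phx x) = cd.bex (p j) w (cd.phx (p (dir i)))) →
    (X.deg x.1 = X.deg (p' (dir i)).1 ∧
    cd.kf (cd.phx x) = cd.kf (cd.phx (p' (dir i))) ∧
    ∀ j, (∀ i', dir i' ≠ j) →
      cd.ch (p' j).1 (cd.phx x) = cd.ch (p' j).1 (cd.phx (p' (dir i))) ∧
      ∀ w, cd.Fx (p' j) w → cd.bex (p' j) w (cd.phx x) = cd.bex (p' j) w (cd.phx (p' (dir i)))) := by
  rintro ⟨h1, h2, h3⟩
  refine ⟨h1.trans (h.deg i).symm, h2.trans (h.kf i).symm, fun j hj => ?_⟩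
  obtain ⟨h4, h5⟩ := h3 j hj
  rw [← h.off j hj]
  exact ⟨h4.trans (h.ch i j hj).symm, fun w hw => (h5 w hw).trans (h.be i j hj w hw).symm⟩

theorem SameB.card_XB (h : cd.SameB p p' dir) (i : Dir m) :
    Nat.card (cd.XB p dir i) = Nat.card (cd.XB p' dir i) := by
  refine Nat.card_congr ?_
  exact
    { toFun := fun x => ⟨x.1, h.xb cd i x.1 x.2⟩
      invFun := fun x => ⟨x.1, (h.symm cd).xb cd i x.1 x.2⟩
      left_inv := fun x => rfl
      right_inv := fun x => rfl }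

theorem sameB_replN (x : (i : Dir m) → cd.XB p dir i) :
    cd.SameB p (cd.replN p dir fun i => (x i).1) dir :=
  ⟨fun j hj => (cd.replN_off p dir _ hj).symm,
    fun i => by rw [replN_dir]; exact (x i).2.1,
    fun i => by rw [replN_dir]; exact (x i).2.2.1,
    fun i j hj => by rw [replN_dir]; exact ((x i).2.2.2 j hj).1,
    fun i j hj w hw => by rw [replN_dir]; exact ((x i).2.2.2 j hj).2 w hw⟩

theorem SameB.eq_replN (h : cd.SameB p p' dir) :
    ∃ x : (i : Dir m) → cd.XB p dir i, p' = cd.replN p dir fun i => (x i).1 := by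
  classical
  refine ⟨fun i => ⟨p' (dir i), h.deg i, h.kf i, fun j hj => ⟨h.ch i j hj, h.be i j hj⟩⟩, ?_⟩
  funext j
  by_cases hj : ∃ i, dir i = j
  · obtain ⟨i, rfl⟩ := hj
    rw [replN_dir]
  · push Not at hj
    rw [replN_off _ _ _ _ hj]
    exact (h.off j hj).symm

theorem SameB.lsp (hc : cd.Ok) (h : cd.SameB p p' dir) (N : ℕ) :
    cd.Lsp p N = cd.Lsp p' N := by
  have key : ∀ {p p' : J → cd.Mk}, cd.SameB p p' dir → cd.Lsp p N ⊆ cd.Lsp p' N := by
    intro p p' h j hj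
    by_cases hj' : ∃ i, dir i = j
    · obtain ⟨i, rfl⟩ := hj'
      refine ⟨(h.deg i).symm ▸ hj.1, ?_⟩
      have h1 : S.ac (cd.phx (p (dir i))) = 1 := hj.2
      have h2 := hc.kf_ac _ _ (h.kf i)
      change S.ac (cd.phx (p' (dir i))) = 1
      rw [h2, h1]
    · push Not at hj'
      have h1 := h.off j hj'
      unfold Lsp at hj ⊢
      change N ≤ X.deg (p j).1 ∧ cd.Split (p j) at hj
      change N ≤ X.deg (p' j).1 ∧ cd.Split (p' j)
      rwa [h1] at hj
  exact Set.Subset.antisymm (key h) (key (h.symm cd))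

end repl

section vec

variable (r0 : {g : G // g ∈ cd.R}) {Ds : Finset X.Pr} {T : Finset ℕ}

theorem vec_inj {x y : cd.MPts T} (h : cd.vec r0 Ds x = cd.vec r0 Ds y) : x = y := by
  funext t
  have h1 : ((x t).1.1, (x t).2) = ((y t).1.1, (y t).2) := congrFun h (Sum.inr t)
  have h2 : (x t).1.1 = (y t).1.1 := (Prod.mk.inj h1).1
  have h3 : (x t).2 = (y t).2 := (Prod.mk.inj h1).2
  exact Prod.ext (Subtype.ext h2) h3

theorem pvec_vec {N : ℕ} (hl : ∀ t ∈ T, N ≤ t) (hs : ∀ P ∈ Ds, X.deg P < N) (x : cd.MPts T) :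
    cd.PVecN (cd.vec r0 Ds x) := by
  rintro (P | t) (Q | u) h
  · exact congrArg Sum.inl (Subtype.ext h)
  · exfalso
    have h1 : P.1 = (x u).1.1 := h
    have h2 := hs P.1 P.2
    rw [h1, (x u).1.2] at h2
    exact absurd (hl u.1 u.2) (not_le.mpr h2)
  · exfalso
    have h1 : (x t).1.1 = Q.1 := h
    have h2 := hs Q.1 Q.2
    rw [← h1, (x t).1.2] at h2
    exact absurd (hl t.1 t.2) (not_le.mpr h2)
  · have h1 : (x t).1.1 = (x u).1.1 := h
    refine congrArg Sum.inr (Subtype.ext ?_)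
    rw [← (x t).1.2, ← (x u).1.2, h1]

theorem degN_vecL (x : cd.MPts T) : cd.degN (cd.vec r0 Ds x) = X.degS Ds + ∑ t ∈ T, t := by
  unfold degN PSys.degS
  rw [Fintype.sum_sum_type, ← Finset.sum_coe_sort Ds, ← Finset.sum_coe_sort T]
  congr 1
  exact Finset.sum_congr rfl fun t _ => (x t).1.2

theorem deg_inr (x : cd.MPts T) (t : T) : X.deg (cd.vec r0 Ds x (Sum.inr t)).1 = t := (x t).1.2

/-- Every point of the big grid comes from a marked point. -/
theorem exists_pt {m : ℕ} (x : cd.MPts T) (dir : Dir m ↪ JG Ds T)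
    (hd : ∀ i, ∃ t, dir i = Sum.inr t) (z : Dir m → cd.Mk)
    (hz : ∀ i, X.deg (z i).1 = X.deg (cd.vec r0 Ds x (dir i)).1) :
    ∃ y : cd.MPts T, cd.vec r0 Ds y = cd.replN (cd.vec r0 Ds x) dir z := by
  classical
  have h1 : ∀ t : T, X.deg (cd.replN (cd.vec r0 Ds x) dir z (Sum.inr t)).1 = t := by
    intro t
    by_cases h : ∃ i, dir i = Sum.inr t
    · obtain ⟨i, hi⟩ := h
      rw [← hi, replN_dir, hz, hi, deg_inr]
    · push Not at h
      rw [replN_off _ _ _ _ h, deg_inr]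
  refine ⟨fun t => (⟨(cd.replN (cd.vec r0 Ds x) dir z (Sum.inr t)).1, h1 t⟩,
    (cd.replN (cd.vec r0 Ds x) dir z (Sum.inr t)).2), ?_⟩
  funext j
  rcases j with P | t
  · rw [replN_off]
    · rfl
    · intro i
      obtain ⟨t, ht⟩ := hd i
      rw [ht]
      exact Sum.inr_ne_inl
  · rfl

end vec

end Pool.Agent.SmN.CData
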